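import Pool.Agent.W500.CS.Stm2

/-!
# Project CQ, CQ-RED: reduction to bounded branches (helper85)
-/

set_option autoImplicit false
set_option maxHeartbeats 4000000

open MeasureTheory Metric Set Filter Topology

namespace Pool.Agent.W85.CQ.Red

open Pool.Agent.W500.CS

theorem scon_mono {W W' : Set ℂ} {U : ℂ → ℝ} (hW' : IsOpen W') (hsub : W' ⊆ W) (h : SCon W U) :
    SCon W' U := by
  intro x hx
  obtain ⟨ε, hε, C, h1, h2⟩ := h x (hsub hx)
  obtain ⟨δ, hδ, h3⟩ := Metric.isOpen_iff.1 hW' x hx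
  refine ⟨min ε δ, lt_min hε hδ, C, (ball_subset_ball (min_le_right _ _)).trans h3, ?_⟩
  exact h2.subset (ball_subset_ball (min_le_left _ _)) (convex_ball x _)

theorem dat_congr {r : ℕ} {W : Set ℂ} {U U' : ℂ → ℝ} {B : Fin r → ℂ → ℂ} (h : Dat W U B)
    (h0 : (0 : ℂ) ∉ W) (hU : ∀ s, s ≠ 0 → U' s = U s) : Dat W U' B where
  op := h.op
  sc := by
    intro x hx
    obtain ⟨ε, hε, C, h1, h2⟩ := h.sc x hx
    refine ⟨ε, hε, C, h1, h2.congr ?_⟩
    intro y hy
    have hy0 : y ≠ 0 := by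
      rintro rfl
      exact h0 (h1 hy)
    simp only [hU y hy0]
  hol := h.hol
  ne := h.ne
  ae := by
    filter_upwards [h.ae] with x hx hxW
    obtain ⟨i, hi⟩ := hx hxW
    refine ⟨i, hi.congr_of_eventuallyEq ?_⟩
    have hx0 : x ≠ 0 := by
      rintro rfl
      exact h0 hxW
    filter_upwards [isOpen_ne.mem_nhds hx0] with y hy
    exact hU y hy

theorem rem_sing (R : ℝ) (hR : 0 < R) (f : ℂ → ℂ) (hf : DifferentiableOn ℂ f (ball 0 R \ {0}))
    (hb : ∃ M : ℝ, ∀ᶠ w in 𝓝[≠] (0 : ℂ), ‖f w‖ ≤ M) :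
    DifferentiableOn ℂ (Function.update f 0 (limUnder (𝓝[≠] (0 : ℂ)) f)) (ball 0 R) := by
  apply Complex.differentiableOn_update_limUnder_of_isLittleO (ball_mem_nhds _ hR) hf
  apply Filter.IsBoundedUnder.isLittleO_sub_self_inv
  obtain ⟨M, hM⟩ := hb
  refine ⟨M + ‖f 0‖, ?_⟩
  rw [Filter.eventually_map]
  filter_upwards [hM] with w hw
  exact (norm_sub_le _ _).trans (by linarith)

theorem main : S_LIM0 → S_RED := by
  classical
  intro hLIM r R K U b hR hb hDat hρ
  obtain ⟨ρ, hρ0, hρ⟩ := hρ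
  -- good indices
  obtain ⟨good, hgood⟩ : ∃ good : Fin r → Prop, good = fun j =>
    ∃ M : ℝ, ∀ᶠ w in 𝓝[≠] (0 : ℂ), ‖b j w / w ^ K‖ ≤ M := ⟨_, rfl⟩
  have hg : ∀ j, good j ↔ ∃ M : ℝ, ∀ᶠ w in 𝓝[≠] (0 : ℂ), ‖b j w / w ^ K‖ ≤ M := by
    intro j
    rw [hgood]
  obtain ⟨e⟩ : Nonempty (Fin (Fintype.card {j // good j}) ≃ {j // good j}) :=
    ⟨(Fintype.equivFin {j // good j}).symm⟩
  obtain ⟨B, hBd⟩ : ∃ B : Fin (Fintype.card {j // good j}) → ℂ → ℂ, B = fun i =>
    Function.update (fun s => b (e i).1 s / s ^ K) 0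
      (limUnder (𝓝[≠] (0 : ℂ)) (fun s => b (e i).1 s / s ^ K)) := ⟨_, rfl⟩
  have hB : ∀ i s, s ≠ 0 → B i s = b (e i).1 s / s ^ K := by
    intro i s hs
    rw [hBd]
    exact Function.update_of_ne hs _ _
  have hBdiff : ∀ i, DifferentiableOn ℂ (B i) (ball 0 R) := by
    intro i
    rw [hBd]
    exact rem_sing R hR _ (hDat.hol (e i).1) ((hg _).1 (e i).2)
  obtain ⟨R', hR'⟩ : ∃ R' : ℝ, R' = min R ρ / 2 := ⟨_, rfl⟩
  have hR'0 : 0 < R' := by
    rw [hR']
    have := lt_min hR hρ0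
    linarith
  have hR'R : R' < R := by
    rw [hR']
    have h1 := min_le_left R ρ
    have h2 := lt_min hR hρ0
    linarith
  have hR'ρ : R' < ρ := by
    rw [hR']
    have h1 := min_le_right R ρ
    have h2 := lt_min hR hρ0
    linarith
  have hsub : ball (0 : ℂ) R' \ {0} ⊆ ball 0 R \ {0} :=
    sdiff_subset_sdiff_left (ball_subset_ball hR'R.le)
  -- bound
  have hbound : ∀ i, ∃ C, ∀ x ∈ closedBall (0 : ℂ) R', ‖B i x‖ ≤ C := by
    intro i
    exact (isCompact_closedBall (0 : ℂ) R').exists_bound_of_continuousOn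
      ((hBdiff i).continuousOn.mono (closedBall_subset_ball hR'R))
  choose Cb hCb using hbound
  obtain ⟨M, hM⟩ := Finite.exists_le Cb
  have hopen : IsOpen (ball (0 : ℂ) R' \ {0}) := isOpen_ball.sdiff isClosed_singleton
  have hD1 : Dat (ball 0 R' \ {0}) U B :=
    { op := hopen
      sc := scon_mono hopen hsub hDat.sc
      hol := fun i => (hBdiff i).mono ((sdiff_subset).trans (ball_subset_ball hR'R.le))
      ne := by
        intro i j hij x hx
        rw [hB i x hx.2, hB j x hx.2]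
        apply hDat.ne _ _ _ x (hsub hx)
        intro h
        exact hij (e.injective (Subtype.ext h))
      ae := by
        filter_upwards [hDat.ae] with x hx hxW
        obtain ⟨j, hj⟩ := hx (hsub hxW)
        have hx0 : x ≠ 0 := hxW.2
        have hxn : ‖x‖ < ρ := by
          have h1 := mem_ball_zero_iff.1 hxW.1
          linarith
        have hjg : good j := (hg j).2 (hρ x (norm_pos_iff.2 hx0) hxn j hj)
        refine ⟨e.symm ⟨j, hjg⟩, ?_⟩
        rw [hB _ x hx0, Equiv.apply_symm_apply]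
        exact hj }
  obtain ⟨L, hL⟩ := hLIM _ R' M U B hR'0 hD1 (fun i x hx =>
    (hCb i x (ball_subset_closedBall hx.1)).trans (hM i))
  refine ⟨R', _, B, Function.update U 0 L, hR'0, hR'R.le,
    fun s hs => Function.update_of_ne hs _ _, continuousAt_update_same.2 hL, ?_,
    fun i => (hBdiff i).mono (ball_subset_ball hR'R.le)⟩
  exact dat_congr hD1 (fun h => h.2 rfl) (fun s hs => Function.update_of_ne hs _ _)

end Pool.Agent.W85.CQ.Red
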